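import Pool.Agent.Helper33.KV.GoalsF3
import Pool.Agent.Helper16.KV.F_CONTQ

/-!
# Project KV (`MP_66be51_an`): continuity in time of the dissipation
-/

namespace Pool.Agent.Helper81.KV

open Real MeasureTheory Set Filter Topology
open Pool.Agent.Helper33.KV Pool.Agent.Helper41.KV Pool.Agent.Helper16.KV
open Pool.Agent.Helper26.KV (HInf_wflux HInf_deriv)

theorem thm_CONTD (hQ : S_QF) (hE : S_ECL1) (hC : S_CURVE) (hT : S_TAUB) : S_CONTD := by
  intro α N0 K T C n Z Y V2 W Wt r r' hα0 hα1 hK hT0 hZ hY hV hBg u t1 t2 h1 h12 h2T hu a b ha hb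
  obtain ⟨hcur, -, -⟩ := hC α hα0 hα1
  have hpos : ∀ t ∈ Icc t1 t2, 0 < t := fun t ht => lt_of_lt_of_le h1 ht.1
  have hlam0 : ∀ t ∈ Icc t1 t2, 0 < lam α t := fun t ht => (hcur t (hpos t ht)).2.1
  have hrho0 : ∀ t ∈ Icc t1 t2, 0 < rho α t := fun t ht => (hcur t (hpos t ht)).2.2.1
  have hsigc : ContinuousOn (sig α) (Icc t1 t2) := fun t ht =>
    (hcur t (hpos t ht)).2.2.2.2.2.1.continuousAt.continuousWithinAt
  have hlamc : ContinuousOn (lam α) (Icc t1 t2) := fun t ht =>
    (hcur t (hpos t ht)).2.2.2.2.2.2.1.continuousAt.continuousWithinAt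
  have hrhoc : ContinuousOn (rho α) (Icc t1 t2) := fun t ht =>
    (hcur t (hpos t ht)).2.2.2.2.2.2.2.continuousAt.continuousWithinAt
  obtain ⟨hW, hWt, hWd⟩ := hBg.hinf t1 t2 h1 h12.le h2T
  have hUt : HInf (fun t x => - deriv (flux (u t)) x) t1 t2 := HInf_wflux hu.hinf
  -- the functions in inner variables
  have cc : ∀ {f : ℝ → ℝ → ℝ}, HInf f t1 t2 → ∀ k : ℕ, ∀ t ∈ Icc t1 t2,
      Continuous (iteratedDeriv k (f t)) := fun hf k t ht =>
    (hf.smooth t ht).continuous_iteratedDeriv k (by exact_mod_cast le_top)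
  have hinn : ∀ {f g : ℝ → ℝ → ℝ}, HInf f t1 t2 → HInf g t1 t2 → HasTimeDeriv f g t1 t2 →
      ∀ k : ℕ, C2 (fun t => iteratedDeriv k (inn α f t)) (Icc t1 t2) := by
    intro f g hf hg hd k
    have h := (C2_inn (α := α) (C2_hinf hf hg hd k) (cc hf k) hlam0 hlamc hsigc).smul
      (hlamc.pow k)
    refine h.congr fun t ht => ?_
    rw [inn_iter k (hf.smooth t ht)]
    rfl
  have hu0 := hinn hu.hinf hUt hu.eqn
  have hW0 := hinn hW hWt hWd
  -- the fixed functions
  have hTE := (hT α Z Y V2 hZ hY hV).1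
  set c : Fin 5 → ℝ → ℝ := ![fun t => a t * (1 - rho α t), fun t => a t * rho α t,
    fun t => b t * (1 - rho α t ^ 2), fun t => b t * ((rho α t + rho α t ^ 2) / 2),
    fun t => b t * ((rho α t ^ 2 - rho α t) / 2)] with hc
  set g : Fin 5 → ℝ → ℝ := ![tauA α Z 0, tauA α Z 1, tauB α Z V2 0, tauB α Z V2 1,
    tauB α Z V2 (-1)] with hg
  have hgE : ∀ i, IsE (g i) := by
    intro i
    fin_cases i
    · exact (hTE 0).1
    · exact (hTE 1).1
    · exact (hTE 0).2.1
    · exact (hTE 1).2.1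
    · exact (hTE (-1)).2.1
  have hcc : ∀ i, ContinuousOn (c i) (Icc t1 t2) := by
    intro i
    fin_cases i
    · exact ha.mul (continuousOn_const.sub hrhoc)
    · exact ha.mul hrhoc
    · exact hb.mul (continuousOn_const.sub (hrhoc.pow 2))
    · exact hb.mul ((hrhoc.add (hrhoc.pow 2)).div_const 2)
    · exact hb.mul (((hrhoc.pow 2).sub hrhoc).div_const 2)
  have heta : ∀ t, etaI α Z V2 u W a b t = fun y => inn α u t y - inn α W t y -
      ∑ i, c i t * g i y := by
    intro t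
    funext y
    rw [Fin.sum_univ_five]
    simp only [hc, hg, etaI, tauA, tauB, Matrix.cons_val]
    ring
  set e : ℝ → ℝ → ℝ := etaI α Z V2 u W a b with he
  have hek : ∀ k : ℕ, C2 (fun t => iteratedDeriv k (e t)) (Icc t1 t2) := by
    intro k
    refine (((hu0 k).sub (hW0 k)).sub
      (five hcc fun i => isE_memLp hE (isE_iter hE (hgE i) k))).congr fun t ht => ?_
    rw [heta]
    have s1 : ContDiff ℝ (⊤ : ℕ∞) (inn α u t) := inn_contDiff (hu.hinf.smooth t ht)
    have s2 : ContDiff ℝ (⊤ : ℕ∞) (inn α W t) := inn_contDiff (hW.smooth t ht)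
    have s3 : ∀ i, ContDiff ℝ (⊤ : ℕ∞) (fun y => c i t * g i y) := fun i =>
      contDiff_const.mul (hgE i).1
    have hk : ((k : ℕ) : WithTop ℕ∞) ≤ ((⊤ : ℕ∞) : WithTop ℕ∞) := by exact_mod_cast le_top
    have s4 : ContDiff ℝ (⊤ : ℕ∞) (fun y => ∑ i, c i t * g i y) :=
      ContDiff.sum fun i _ => s3 i
    funext y
    have e1 : iteratedDeriv k (fun y => inn α u t y - inn α W t y - ∑ i, c i t * g i y) y =
        iteratedDeriv k (fun y => inn α u t y - inn α W t y) y
          - iteratedDeriv k (fun y => ∑ i, c i t * g i y) y :=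
      iteratedDeriv_fun_sub ((s1.sub s2).of_le hk).contDiffAt (s4.of_le hk).contDiffAt
    have e2 : iteratedDeriv k (fun y => inn α u t y - inn α W t y) y =
        iteratedDeriv k (inn α u t) y - iteratedDeriv k (inn α W t) y :=
      iteratedDeriv_fun_sub (s1.of_le hk).contDiffAt (s2.of_le hk).contDiffAt
    have e3 : iteratedDeriv k (fun y => ∑ i, c i t * g i y) y =
        ∑ i, iteratedDeriv k (fun y => c i t * g i y) y :=
      iteratedDeriv_fun_sum fun i _ => ((s3 i).of_le hk).contDiffAt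
    rw [e1, e2, e3]
    congr 1
    refine Finset.sum_congr rfl fun i _ => ?_
    exact iteratedDeriv_const_mul_field (c i t) (g i)
  -- the weight
  have hwd : ∀ t ∈ Icc t1 t2, ∀ y, 1 ≤ 1 + rho α t * Real.exp (-(y / K)) := by
    intro t ht y
    have := mul_nonneg (hrho0 t ht).le (Real.exp_pos (-(y / K))).le
    linarith
  have hv1 : ∀ t ∈ Icc t1 t2, Continuous (fun y => wt K (rho α t) y) := by
    intro t ht
    unfold wt
    refine Continuous.div continuous_const (by fun_prop) fun y => ?_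
    have := hwd t ht y
    linarith
  have hv0 : ∀ t ∈ Icc t1 t2, ∀ y, 0 ≤ wt K (rho α t) y ∧ wt K (rho α t) y ≤ 1 := by
    intro t ht y
    have h := hwd t ht y
    unfold wt
    refine ⟨by positivity, ?_⟩
    rw [div_le_one (by linarith)]
    exact h
  have hv3 : ∀ s ∈ Icc t1 t2, ∀ y, Tendsto (fun t => wt K (rho α t) y) (𝓝[Icc t1 t2] s)
      (𝓝 (wt K (rho α s) y)) := by
    intro s hs y
    unfold wt
    refine Tendsto.div tendsto_const_nhds (((hrhoc s hs).mul_const _).const_add _) ?_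
    have := hwd s hs y
    linarith
  have hK0 : 0 < K := by linarith
  set w : ℝ → ℝ → ℝ := fun t y => wt K (rho α t) y * (1 - wt K (rho α t) y) / K with hw
  have hw1 : ∀ t ∈ Icc t1 t2, Continuous (w t) := fun t ht =>
    ((hv1 t ht).mul (continuous_const.sub (hv1 t ht))).div_const K
  have hw2 : ∀ t ∈ Icc t1 t2, ∀ y, |w t y| ≤ 1 := by
    intro t ht y
    obtain ⟨h3, h4⟩ := hv0 t ht y
    have h5 : 0 ≤ wt K (rho α t) y * (1 - wt K (rho α t) y) := mul_nonneg h3 (by linarith)
    simp only [hw]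
    rw [abs_of_nonneg (div_nonneg h5 hK0.le), div_le_one hK0]
    nlinarith
  have hw3 : ∀ s ∈ Icc t1 t2, ∀ y, Tendsto (fun t => w t y) (𝓝[Icc t1 t2] s) (𝓝 (w s y)) := by
    intro s hs y
    exact ((hv3 s hs y).mul ((hv3 s hs y).const_sub 1)).div_const K
  have we : ∀ k : ℕ, C2 (fun t y => w t y * iteratedDeriv k (e t) y) (Icc t1 t2) := fun k =>
    (hek k).bdd hw1 hw2 hw3
  refine ((((we 2).bilin (hek 2)).add ((we 1).bilin (hek 1))).add
    ((we 0).bilin (hek 0))).congr fun t ht => ?_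
  have i : ∀ k : ℕ, Integrable (fun y => w t y * iteratedDeriv k (e t) y
      * iteratedDeriv k (e t) y) := fun k => ((we k).mem t ht).integrable_mul ((hek k).mem t ht)
  have i12 : Integrable (fun y => w t y * iteratedDeriv 2 (e t) y * iteratedDeriv 2 (e t) y
      + w t y * iteratedDeriv 1 (e t) y * iteratedDeriv 1 (e t) y) := (i 2).add (i 1)
  change (∫ y, w t y * (iteratedDeriv 2 (e t) y ^ 2 + deriv (e t) y ^ 2 + e t y ^ 2)) =
    (∫ y, w t y * iteratedDeriv 2 (e t) y * iteratedDeriv 2 (e t) y)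
      + (∫ y, w t y * iteratedDeriv 1 (e t) y * iteratedDeriv 1 (e t) y)
      + ∫ y, w t y * iteratedDeriv 0 (e t) y * iteratedDeriv 0 (e t) y
  rw [← integral_add (i 2) (i 1), ← integral_add i12 (i 0)]
  refine integral_congr_ae (Eventually.of_forall fun y => ?_)
  simp only [iteratedDeriv_one, iteratedDeriv_zero]
  ring

end Pool.Agent.Helper81.KV
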